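import Pool.Agent.SPV.StmtsA

set_option autoImplicit false

namespace Pool.Agent.SPV.H51

open Finset

theorem dgr : DgrStmt := by
  intro K _ m D y
  classical
  set E : ℕ → MvPolynomial D K := fun j => if h : j ∈ D then MvPolynomial.X ⟨j, h⟩ else 0 with hE
  set M : Matrix (Fin (m + 1)) (Fin (m + 1)) (MvPolynomial D K) :=
    Matrix.of fun i j => if i.val < m then E (i.val + j.val) else MvPolynomial.C (y ^ j.val) with hM
  have hd : ∀ i j, (M i j).totalDegree ≤ if i.val < m then 1 else 0 := by
    intro i j
    simp only [hM, Matrix.of_apply]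
    split_ifs with h
    · simp only [hE]
      split_ifs with h2
      · exact (MvPolynomial.totalDegree_X _).le
      · simp
    · exact (MvPolynomial.totalDegree_C _).le
  refine ⟨M.det, ?_, ?_⟩
  · rw [Matrix.det_apply]
    refine (MvPolynomial.totalDegree_finsetSum _ _).trans (Finset.sup_le fun σ _ => ?_)
    have h1 : (Equiv.Perm.sign σ • ∏ i, M (σ i) i).totalDegree ≤ (∏ i, M (σ i) i).totalDegree := by
      rcases Int.units_eq_one_or (Equiv.Perm.sign σ) with h | h
      · rw [h, one_smul]
      · rw [h]; simp
    refine h1.trans ((MvPolynomial.totalDegree_finsetProd _ _).trans ?_)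
    refine (Finset.sum_le_sum fun i _ => hd (σ i) i).trans ?_
    rw [Equiv.sum_comp σ (fun i : Fin (m + 1) => if i.val < m then 1 else 0)]
    rw [Fin.sum_univ_castSucc]
    simp
  · intro v
    rw [chi, RingHom.map_det]
    congr 1
    ext i j
    simp only [RingHom.mapMatrix_apply, Matrix.map_apply, hM, Matrix.of_apply]
    by_cases h : i.val < m
    · rw [if_pos h, if_pos h]
      simp only [hE]
      by_cases h2 : i.val + j.val ∈ D
      · rw [dif_pos h2, dif_pos h2, MvPolynomial.eval_X]
      · rw [dif_neg h2, dif_neg h2, map_zero]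
    · rw [if_neg h, if_neg h, MvPolynomial.eval_C]

end Pool.Agent.SPV.H51
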