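import Pool.Agent.SPV.StmtsA

set_option autoImplicit false

namespace Pool.Agent.SPV.H51

open Finset

/-- the monomials of degree at most `M` as multisets of size `M` with a filling element -/
noncomputable def toSym {σ : Type} (M : ℕ)
    (n : {n : σ →₀ ℕ | (n.sum fun _ e => e) ≤ M}) : Sym (Option σ) M :=
  ⟨(Finsupp.toMultiset n.1).map some + Multiset.replicate (M - n.1.sum fun _ e => e) none, by
    have h := n.2
    simp only [Set.mem_ofPred_eq] at h
    rw [Multiset.card_add, Multiset.card_map, Multiset.card_replicate, Finsupp.card_toMultiset]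
    exact Nat.add_sub_cancel' h⟩

theorem toSym_injective {σ : Type} (M : ℕ) : Function.Injective (toSym (σ := σ) M) := by
  classical
  intro n n' h
  apply Subtype.ext
  ext a
  have h1 := congrArg (fun s : Sym (Option σ) M => Multiset.count (some a) s.1) h
  simp only [toSym, Multiset.count_add, Multiset.count_replicate] at h1
  rw [Multiset.count_map_eq_count' _ _ (Option.some_injective σ),
    Multiset.count_map_eq_count' _ _ (Option.some_injective σ), Finsupp.count_toMultiset,
    Finsupp.count_toMultiset] at h1
  simpa using h1

theorem dim : DimStmt := by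
  intro K _ σ _ n M P v hP h0 h1
  classical
  have hli : LinearIndependent K P := by
    rw [Fintype.linearIndependent_iff]
    intro c hc i
    have h2 := congrArg (MvPolynomial.eval (v i)) hc
    rw [map_sum, map_zero, Finset.sum_eq_single i] at h2
    · rw [MvPolynomial.smul_eval] at h2
      exact (mul_eq_zero.mp h2).resolve_right (h0 i)
    · intro j _ hj
      rw [MvPolynomial.smul_eval, h1 j i hj, mul_zero]
    · intro h; exact absurd (Finset.mem_univ i) h
  let V := MvPolynomial.restrictTotalDegree σ K M
  have hmem : ∀ i, P i ∈ V := fun i => (MvPolynomial.mem_restrictTotalDegree σ M (P i)).mpr (hP i)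
  let Q : Fin n → V := fun i => ⟨P i, hmem i⟩
  have hQ : LinearIndependent K Q := by
    apply LinearIndependent.of_comp V.subtype
    exact hli
  have h3 := hQ.fintype_card_le_finrank
  rw [Fintype.card_fin] at h3
  refine h3.trans ?_
  have h4 : Module.finrank K V = Nat.card {n : σ →₀ ℕ | (n.sum fun _ e => e) ≤ M} :=
    Module.finrank_eq_nat_card_basis (MvPolynomial.basisRestrictSupport K _)
  rw [h4]
  refine (Nat.card_le_card_of_injective _ (toSym_injective M)).trans ?_
  rw [Nat.card_eq_fintype_card, Sym.card_sym_eq_choose, Fintype.card_option]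
  rw [show Fintype.card σ + 1 + M - 1 = M + Fintype.card σ by omega]
  rw [Nat.choose_symm_add]

end Pool.Agent.SPV.H51
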