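import Pool.Agent.SPV.StmtsB
import Pool.Agent.Helper77_SPV.RTS
import Pool.Agent.Helper49_SPV.PRO
import Pool.Agent.Helper49_SPV.WIN
import Pool.Agent.Helper51_SPV.DGR
import Pool.Agent.Helper51_SPV.DIM
import Pool.Agent.Helper67_SPV.CNS
import Pool.Agent.Helper44_SPV.SMK
import Pool.Agent.Helper68_SPV.NRE
import Pool.Agent.Helper68_SPV.NBS
import Pool.Agent.Helper88_SPV.AES
import Pool.Agent.Helper70_SPV.UNB

/-!
# Almost all exponent sets, all coefficients: the theorem without hypotheses
-/

set_option autoImplicit false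

namespace Pool.Agent.SPV.H51

theorem nre' : NreStmt := H68.nre H77.rts

theorem nbs' : NbsStmt := H68.nbs (H67.cns H49.pro dgr dim) H49.win nre'

theorem aes' : AesStmt := H88.S.aes H44.smk nre' nbs' H70.unb

end Pool.Agent.SPV.H51
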